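import Pool.Agent.H207.BT.Stm5
import Pool.Agent.H211.HY.AsmC

/-!
# Project BT of helper207: all periodic points of Collet-Eckmann maps are repelling (`S_RPL`)
-/

set_option autoImplicit false

open Topology Filter Metric Set MeasureTheory Polynomial

namespace Pool.Agent.H99.BT207

open Pool.Agent.H790R3.RB Pool.Agent.H211.HY Pool.Agent.H207.BT

namespace RPL

theorem cr_swap {a b : ℂ × ℂ} (h : cr a b = 0) : cr b a = 0 := by
  unfold cr at *
  linear_combination -h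

theorem cr_tr {a b c : ℂ × ℂ} (ha : a ≠ 0) (hb : b ≠ 0) (h1 : cr a b = 0)
    (h2 : cr b c = 0) : cr a c = 0 := by
  obtain ⟨s, hs, rfl⟩ := (cr_eq_zero_iff ha hb).1 h1
  have h3 : cr (s • b) c = s * cr b c := by
    simp only [cr, Prod.smul_fst, Prod.smul_snd, smul_eq_mul]
    ring
  rw [h3, h2, mul_zero]

theorem fin_pos {ι : Type} [Finite ι] (f : ι → ℝ) (h : ∀ s, 0 < f s) :
    ∃ η > (0 : ℝ), ∀ s, η ≤ f s := by
  rcases isEmpty_or_nonempty ι with h0 | h0
  · exact ⟨1, one_pos, fun s => (h0.false s).elim⟩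
  · obtain ⟨s₀, hs₀⟩ := Finite.exists_min f
    exact ⟨f s₀, h s₀, hs₀⟩

theorem lagrange (p q : ℂ × ℂ) :
    ‖q.1 * (starRingEnd ℂ) p.1 + q.2 * (starRingEnd ℂ) p.2‖ ^ 2 + ‖cr q p‖ ^ 2 = N2 p * N2 q := by
  unfold cr N2
  simp only [Complex.sq_norm, Complex.normSq_apply, Complex.add_re, Complex.add_im,
    Complex.mul_re, Complex.mul_im, Complex.sub_re, Complex.sub_im, Complex.conj_re,
    Complex.conj_im]
  ring

theorem differentiable_hF {d : ℕ} (x : CV d) : Differentiable ℂ (hF x) := by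
  unfold hF
  refine Differentiable.prodMk ?_ ?_
  · fun_prop
  · fun_prop

theorem differentiable_iter {d : ℕ} (x : CV d) (n : ℕ) : Differentiable ℂ ((hF x)^[n]) := by
  induction n with
  | zero => exact differentiable_id
  | succ n ih =>
    rw [Function.iterate_succ']
    exact (differentiable_hF x).comp ih

/-- the speed of a map parallel to a chart -/
theorem spd_par {F : ℂ → ℂ × ℂ} (τ : Bool) {u : ℂ} {r : ℝ} (hF : DifferentiableOn ℂ F (ball u r))
    (hr : 0 < r) (h0 : ∀ w ∈ ball u r, F w ≠ 0 ∧ cr (F w) (iot τ w) = 0) :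
    spd F u = 1 / (1 + ‖u‖ ^ 2) := by
  have hu : u ∈ ball u r := mem_ball_self hr
  have hd : DifferentiableAt ℂ F u := hF.differentiableAt (isOpen_ball.mem_nhds hu)
  have h1 : HasDerivAt (fun w => (F w).1) (deriv F u).1 u :=
    (hasFDerivAt_fst (𝕜 := ℂ) (E := ℂ) (F := ℂ) (p := F u)).comp_hasDerivAt u hd.hasDerivAt
  have h2 : HasDerivAt (fun w => (F w).2) (deriv F u).2 u :=
    (hasFDerivAt_snd (𝕜 := ℂ) (E := ℂ) (F := ℂ) (p := F u)).comp_hasDerivAt u hd.hasDerivAt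
  have hN := N2_pos (h0 u hu).1
  have hpos : (0 : ℝ) < 1 + ‖u‖ ^ 2 := by positivity
  cases τ
  · have h3 : HasDerivAt (fun w => (F w).1 * w) ((deriv F u).1 * u + (F u).1 * 1) u :=
      h1.mul (hasDerivAt_id u)
    have hpar : ∀ w, cr (F w) (iot false w) = 0 → (F w).2 = (F w).1 * w := by
      intro w hw
      have h5 : (F w).1 * w - (F w).2 * 1 = 0 := hw
      rw [mul_one] at h5
      exact (sub_eq_zero.1 h5).symm
    have h4 : (fun w => (F w).1 * w) =ᶠ[𝓝 u] (fun w => (F w).2) := by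
      filter_upwards [isOpen_ball.mem_nhds hu] with w hw
      exact (hpar w (h0 w hw).2).symm
    have h5 : (deriv F u).2 = (deriv F u).1 * u + (F u).1 * 1 :=
      (h2.congr_of_eventuallyEq h4).unique h3
    have h7 : (F u).2 = (F u).1 * u := hpar u (h0 u hu).2
    have h8 : cr (deriv F u) (F u) = -(F u).1 ^ 2 := by
      unfold cr
      rw [h5, h7]
      ring
    have h9 : N2 (F u) = ‖(F u).1‖ ^ 2 * (1 + ‖u‖ ^ 2) := by
      unfold N2
      rw [h7, norm_mul]
      ring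
    have h10 : ‖(F u).1‖ ^ 2 ≠ 0 := by
      intro h
      rw [h9, h, zero_mul] at hN
      exact lt_irrefl _ hN
    unfold spd
    rw [h8, norm_neg, norm_pow, h9, ← div_div, div_self h10]
  · have h3 : HasDerivAt (fun w => (F w).2 * w) ((deriv F u).2 * u + (F u).2 * 1) u :=
      h2.mul (hasDerivAt_id u)
    have hpar : ∀ w, cr (F w) (iot true w) = 0 → (F w).1 = (F w).2 * w := by
      intro w hw
      have h5 : (F w).1 * 1 - (F w).2 * w = 0 := hw
      rw [mul_one] at h5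
      exact sub_eq_zero.1 h5
    have h4 : (fun w => (F w).2 * w) =ᶠ[𝓝 u] (fun w => (F w).1) := by
      filter_upwards [isOpen_ball.mem_nhds hu] with w hw
      exact (hpar w (h0 w hw).2).symm
    have h5 : (deriv F u).1 = (deriv F u).2 * u + (F u).2 * 1 :=
      (h1.congr_of_eventuallyEq h4).unique h3
    have h7 : (F u).1 = (F u).2 * u := hpar u (h0 u hu).2
    have h8 : cr (deriv F u) (F u) = (F u).2 ^ 2 := by
      unfold cr
      rw [h5, h7]
      ring
    have h9 : N2 (F u) = ‖(F u).2‖ ^ 2 * (1 + ‖u‖ ^ 2) := by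
      unfold N2
      rw [h7, norm_mul]
      ring
    have h10 : ‖(F u).2‖ ^ 2 ≠ 0 := by
      intro h
      rw [h9, h, zero_mul] at hN
      exact lt_irrefl _ hN
    unfold spd
    rw [h8, norm_pow, h9, ← div_div, div_self h10]

/-- Cauchy's estimate -/
theorem spd_small {g : ℂ → ℂ × ℂ} {y : ℂ} {r η : ℝ} (hr : 0 < r) (hη1 : η ≤ 1 / 2)
    (hg : DifferentiableOn ℂ g (ball y r)) (h0 : ∀ u ∈ ball y r, g u ≠ 0)
    (h : ∀ u ∈ ball y r, cho (g u) (g y) < η) : spd g y ≤ 4 * η / r := by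
  have hy : y ∈ ball y r := mem_ball_self hr
  obtain ⟨q, hq⟩ : ∃ q, q = g y := ⟨_, rfl⟩
  have hq0 : q ≠ 0 := by rw [hq]; exact h0 y hy
  have hNq := N2_pos hq0
  obtain ⟨B, hB⟩ : ∃ B : ℂ → ℂ, B = fun w => (g w).1 * (starRingEnd ℂ) q.1 +
    (g w).2 * (starRingEnd ℂ) q.2 := ⟨_, rfl⟩
  obtain ⟨A, hA⟩ : ∃ A : ℂ → ℂ, A = fun w => cr (g w) q := ⟨_, rfl⟩
  have g1 : ∀ u ∈ ball y r, HasDerivAt (fun w => (g w).1) (deriv g u).1 u := fun u hu =>
    (hasFDerivAt_fst (𝕜 := ℂ) (E := ℂ) (F := ℂ) (p := g u)).comp_hasDerivAt u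
      (hg.differentiableAt (isOpen_ball.mem_nhds hu)).hasDerivAt
  have g2 : ∀ u ∈ ball y r, HasDerivAt (fun w => (g w).2) (deriv g u).2 u := fun u hu =>
    (hasFDerivAt_snd (𝕜 := ℂ) (E := ℂ) (F := ℂ) (p := g u)).comp_hasDerivAt u
      (hg.differentiableAt (isOpen_ball.mem_nhds hu)).hasDerivAt
  have dA : ∀ u ∈ ball y r, HasDerivAt A (cr (deriv g u) q) u := fun u hu => by
    rw [hA]
    exact ((g1 u hu).mul_const q.2).sub ((g2 u hu).mul_const q.1)
  have dB : ∀ u ∈ ball y r, HasDerivAt B ((deriv g u).1 * (starRingEnd ℂ) q.1 +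
      (deriv g u).2 * (starRingEnd ℂ) q.2) u := fun u hu => by
    rw [hB]
    exact ((g1 u hu).mul_const _).add ((g2 u hu).mul_const _)
  have key : ∀ u ∈ ball y r, B u ≠ 0 ∧ ‖A u / B u‖ ≤ 2 * η := by
    intro u hu
    have hL := lagrange q (g u)
    have hNu := N2_pos (h0 u hu)
    obtain ⟨S, hS⟩ : ∃ S, S = Real.sqrt (N2 (g u) * N2 q) := ⟨_, rfl⟩
    have hS0 : 0 < S := by rw [hS]; exact Real.sqrt_pos.2 (mul_pos hNu hNq)
    have hS2 : S ^ 2 = N2 q * N2 (g u) := by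
      rw [hS, Real.sq_sqrt (mul_pos hNu hNq).le]
      ring
    have hc : ‖cr (g u) q‖ ≤ η * S := by
      have h1 := (h u hu).le
      rw [← hq] at h1
      unfold cho at h1
      rw [← hS, div_le_iff₀ hS0] at h1
      exact h1
    have hη0 : 0 ≤ η := by
      by_contra hcon
      push Not at hcon
      have : η * S < 0 := mul_neg_of_neg_of_pos hcon hS0
      linarith [norm_nonneg (cr (g u) q)]
    have hBn : (S / 2) ^ 2 ≤ ‖B u‖ ^ 2 := by
      have e1 : ‖B u‖ ^ 2 + ‖cr (g u) q‖ ^ 2 = S ^ 2 := by rw [hS2, ← hL, hB]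
      have e2 : ‖cr (g u) q‖ ^ 2 ≤ (S / 2) ^ 2 := by
        apply pow_le_pow_left₀ (norm_nonneg _)
        refine hc.trans ?_
        nlinarith
      nlinarith
    have hBl : S / 2 ≤ ‖B u‖ := by
      by_contra hcon
      push Not at hcon
      have := pow_lt_pow_left₀ hcon (norm_nonneg _) (n := 2) (by norm_num)
      linarith
    have hBp : 0 < ‖B u‖ := by linarith
    refine ⟨norm_pos_iff.1 hBp, ?_⟩
    rw [norm_div, div_le_iff₀ hBp]
    have hAu : ‖A u‖ ≤ η * S := by rw [hA]; exact hc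
    nlinarith
  have hcl : closedBall y (r / 2) ⊆ ball y r := closedBall_subset_ball (by linarith)
  have hdiff : DifferentiableOn ℂ (fun w => A w / B w) (ball y r) := fun u hu =>
    (((dA u hu).div (dB u hu) (key u hu).1).differentiableAt).differentiableWithinAt
  have hC := Complex.norm_deriv_le_of_forall_mem_sphere_norm_le (c := y) (R := r / 2)
    (C := 2 * η) (f := fun w => A w / B w) (by linarith) (hdiff.diffContOnCl_ball hcl)
    (fun z hz => (key z (hcl (sphere_subset_closedBall hz))).2)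
  have hder := ((dA y hy).div (dB y hy) (key y hy).1).deriv
  have hAy : A y = 0 := by
    rw [hA]
    show cr (g y) q = 0
    rw [hq]
    unfold cr
    ring
  have hBy : B y = ((N2 q : ℝ) : ℂ) := by
    rw [hB]
    show (g y).1 * (starRingEnd ℂ) q.1 + (g y).2 * (starRingEnd ℂ) q.2 = _
    rw [← hq, Complex.mul_conj, Complex.mul_conj, Complex.normSq_eq_norm_sq,
      Complex.normSq_eq_norm_sq]
    unfold N2
    push_cast
    ring
  have hfin : ‖deriv (fun w => A w / B w) y‖ = spd g y := by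
    have e : deriv (fun w => A w / B w) y = cr (deriv g y) q / ((N2 q : ℝ) : ℂ) := by
      refine hder.trans ?_
      rw [hAy, zero_mul, sub_zero, hBy]
      have : ((N2 q : ℝ) : ℂ) ≠ 0 := by exact_mod_cast hNq.ne'
      field_simp
    rw [e, norm_div, Complex.norm_real, Real.norm_of_nonneg hNq.le]
    unfold spd
    rw [hq]
  rw [hfin] at hC
  refine hC.trans (le_of_eq ?_)
  field_simp
  ring

end RPL

open RPL

theorem t_RPL (hHITL : S_HITL) (hSHJ : S_SHJ) (hLEOJ : S_LEOJ) (hCHO : S_CHO) :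
    Pool.Agent.H207.BT.S_RPL := by
  intro d k x c m hyp hnrm hfac p n hp hn hper
  have hd := hyp.hd
  have hleo := hLEOJ d x hyp.hd hyp.nd hyp.ce
  obtain ⟨-, hch, -, hscal, hall⟩ := hCHO
  obtain ⟨hspd, hsdn, hcrit, hne, -⟩ := hall d x hyp.hd hyp.nd
  have hcho_par : ∀ a b e : ℂ × ℂ, a ≠ 0 → b ≠ 0 → cr a b = 0 → cho a e = cho b e := by
    intro a b e ha hb h
    obtain ⟨s, hs, rfl⟩ := (cr_eq_zero_iff ha hb).1 h
    have := hscal b e s 1 hs one_ne_zero
    rw [one_smul] at this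
    exact this
  have hsdn_par : ∀ (N : ℕ) (a b : ℂ × ℂ), a ≠ 0 → b ≠ 0 → cr a b = 0 → sdn x N a = sdn x N b := by
    intro N a b ha hb h
    obtain ⟨s, hs, rfl⟩ := (cr_eq_zero_iff ha hb).1 h
    exact hsdn N b s hs hb
  -- the cycle
  have hperN : ∀ N : ℕ, cr ((hF x)^[n * N] p) p = 0 := by
    intro N
    induction N with
    | zero =>
      show cr p p = 0
      unfold cr
      ring
    | succ N ih =>
      rw [Nat.mul_succ, Function.iterate_add_apply]
      exact cr_tr (hne _ _ (hne _ _ hp)) (hne _ _ hp) (hcrit (n * N) _ _ hper) ih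
  have hpow : ∀ N : ℕ, sdn x (n * N) p = sdn x n p ^ N := by
    intro N
    induction N with
    | zero => simp [sdn]
    | succ N ih =>
      have e : sdn x (n * N + n) p = sdn x (n * N) p * sdn x n ((hF x)^[n * N] p) := by
        unfold sdn
        rw [Finset.prod_range_add]
        congr 1
        apply Finset.prod_congr rfl
        intro j _
        rw [add_comm, Function.iterate_add_apply]
      rw [Nat.mul_succ, e, ih, hsdn_par n _ p (hne _ _ hp) hp (hperN N), pow_succ]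
  have hsdn0 : 0 ≤ sdn x n p := by
    unfold sdn
    apply Finset.prod_nonneg
    intro j _
    unfold sd
    have h1 : 0 ≤ N2 ((hF x)^[j] p) := (N2_pos (hne _ _ hp)).le
    have h2 : 0 ≤ N2 (hF x ((hF x)^[j] p)) := by
      unfold N2
      positivity
    positivity
  -- no critical point on the cycle
  have hnc : ∀ (l : ℕ) (i : Fin k), cr ((hF x)^[l] p) (c i, 1) ≠ 0 := by
    intro l i h
    have hc0 : ((c i, 1) : ℂ × ℂ) ≠ 0 := one_ne _
    have hq0 := hne l p hp
    have e1 : cr ((hF x)^[n] ((hF x)^[l] p)) ((hF x)^[l] p) = 0 := by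
      rw [← Function.iterate_add_apply, add_comm, Function.iterate_add_apply]
      exact hcrit l _ _ hper
    have e2 := hcrit n _ _ h
    have e3 : cr ((hF x)^[n] (c i, 1)) (c i, 1) = 0 :=
      cr_tr (hne _ _ hc0) (hne _ _ hq0) (cr_swap e2)
        (cr_tr (hne _ _ hq0) hq0 e1 h)
    have e4 : wr x ((hF x)^[n] (c i, 1)) = 0 := wr_of_par hd x (hne _ _ hc0) hc0 e3 (hfac.crit i)
    have e5 := noncrit hyp.ce (hfac.crit i) (n - 1)
    rw [Nat.sub_add_cancel hn] at e5
    exact e5 e4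
  obtain ⟨η₁, hη₁, hmin⟩ := fin_pos (fun s : Fin n × Fin k =>
    cho ((hF x)^[(s.1 : ℕ)] p) (c s.2, 1))
    (fun s => cho_pos (hne _ _ hp) (one_ne _) (hnc _ _))
  obtain ⟨η₀, hη₀, hη₀1, hη₀l⟩ : ∃ η₀ > (0 : ℝ), η₀ ≤ 1 ∧
      ∀ (l : ℕ) (i : Fin k), η₀ ≤ cho ((hF x)^[l] p) (c i, 1) := by
    refine ⟨min η₁ 1, lt_min hη₁ one_pos, min_le_right _ _, fun l i => ?_⟩
    have h1 := hmin (⟨l % n, Nat.mod_lt _ hn⟩, i)
    have h2 : cr ((hF x)^[l] p) ((hF x)^[l % n] p) = 0 := by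
      have h3 := hcrit (l % n) _ _ (hperN (l / n))
      rw [← Function.iterate_add_apply, Nat.mod_add_div] at h3
      exact h3
    rw [hcho_par _ _ _ (hne _ _ hp) (hne _ _ hp) h2]
    exact (min_le_left _ _).trans h1
  -- constants
  obtain ⟨μ, hμ, c₀, hc₀, hexp, hθ⟩ := hHITL d k x c m hyp.hd hyp.nd hyp.ce hnrm hfac hleo
  obtain ⟨C, hC, R₁, hR₁, hR⟩ := hθ ((1 + μ) / 2) (by linarith) (by linarith)
  obtain ⟨R₂, hR₂, hsh⟩ := hSHJ d x hyp.hd hyp.nd hyp.ce hleo
  obtain ⟨R, hRdef⟩ : ∃ R, R = min (min R₁ R₂) (η₀ ^ (2 * d) * c₀ / (2 * C)) := ⟨_, rfl⟩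
  have hR0 : 0 < R := by
    rw [hRdef]
    exact lt_min (lt_min hR₁ hR₂) (by positivity)
  have hRR1 : R ≤ R₁ := by rw [hRdef]; exact (min_le_left _ _).trans (min_le_left _ _)
  have hRR2 : R ≤ R₂ := by rw [hRdef]; exact (min_le_left _ _).trans (min_le_right _ _)
  have hRR3 : C * R ≤ η₀ ^ (2 * d) * c₀ / 2 := by
    have h1 : R ≤ η₀ ^ (2 * d) * c₀ / (2 * C) := by rw [hRdef]; exact min_le_right _ _
    rw [le_div_iff₀ (by positivity)] at h1
    linarith
  have hpy : cr p (iot (tau p) (zc p)) = 0 := lc_cr (dn_tau_ne hp)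
  have hmi : ∀ i, m i + 1 ≤ 2 * d := by
    intro i
    have h1 : m i ≤ ∑ j, m j := Finset.single_le_sum (fun _ _ => Nat.zero_le _) (Finset.mem_univ i)
    rw [hfac.deg] at h1
    omega
  have hbr : ∀ N : ℕ, ∃ g, BrT x (n * N) (tau p) (zc p) R g ∧ cr (g (zc p)) p = 0 := by
    intro N
    rcases hR R hR0 hRR1 (n * N) (tau p) (zc p) p hp
      (cr_tr (hne _ _ hp) hp (hperN N) hpy) with h | ⟨j, -, i, -, h⟩
    · exact h
    · exfalso
      have h1 : η₀ ^ (2 * d) ≤ cho ((hF x)^[n * N - 1 - j] p) (c i, 1) ^ (m i + 1) :=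
        (pow_le_pow_of_le_one hη₀.le hη₀1 (hmi i)).trans
          (pow_le_pow_left₀ hη₀.le (hη₀l _ i) _)
      have h2 := hexp i j
      have hθj : 0 < ((1 + μ) / 2) ^ j := by
        have : 0 < (1 + μ) / 2 := by linarith
        positivity
      have h3 : c₀ * ((1 + μ) / 2) ^ j ≤ sdn x j (hF x (c i, 1)) := by
        refine le_trans ?_ h2
        exact mul_le_mul_of_nonneg_left
          (pow_le_pow_left₀ (by linarith) (by linarith) _) hc₀.le
      have h4 : η₀ ^ (2 * d) * (c₀ * ((1 + μ) / 2) ^ j) ≤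
          cho ((hF x)^[n * N - 1 - j] p) (c i, 1) ^ (m i + 1) * sdn x j (hF x (c i, 1)) :=
        mul_le_mul h1 h3 (by positivity) (le_trans (by positivity) h1)
      have h5 : C * ((1 + μ) / 2) ^ j * R ≤ η₀ ^ (2 * d) * c₀ / 2 * ((1 + μ) / 2) ^ j := by
        have := mul_le_mul_of_nonneg_right hRR3 hθj.le
        linarith
      have h6 : 0 < η₀ ^ (2 * d) * c₀ * ((1 + μ) / 2) ^ j := by positivity
      have h7 := (h4.trans h).trans h5
      linarith
  -- the contraction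
  obtain ⟨D, hD⟩ : ∃ D : ℝ, D = 1 + ‖zc p‖ ^ 2 := ⟨_, rfl⟩
  have hD0 : 0 < D := by rw [hD]; positivity
  obtain ⟨η, hη⟩ : ∃ η : ℝ, η = min (1 / 2) (R / (64 * D)) := ⟨_, rfl⟩
  have hη0 : 0 < η := by
    rw [hη]
    exact lt_min (by norm_num) (by positivity)
  obtain ⟨T, hT⟩ := hsh η hη0
  obtain ⟨g, hg, hgp⟩ := hbr (T + 1)
  have hTn : T ≤ n * (T + 1) := by nlinarith
  have hsub : ball (zc p) (R / 8) ⊆ ball (zc p) R := ball_subset_ball (by linarith)
  have hyR : zc p ∈ ball (zc p) R := mem_ball_self hR0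
  have hsm := hT (n * (T + 1)) hTn (tau p) (zc p) R g hR0 hRR2 hg
  have h1 : spd g (zc p) ≤ 4 * η / (R / 8) := by
    refine spd_small (by linarith) (by rw [hη]; exact min_le_left _ _) (hg.1.mono hsub)
      (fun u hu => (hg.2 u (hsub hu)).1) ?_
    intro u hu
    exact hsm u hu (hyp.jul _ (hg.2 u (hsub hu)).1)
  have h2 : 4 * η / (R / 8) ≤ 1 / (2 * D) := by
    have e : η ≤ R / (64 * D) := by rw [hη]; exact min_le_right _ _
    rw [div_le_div_iff₀ (by positivity) (by positivity)]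
    rw [le_div_iff₀ (by positivity)] at e
    linarith
  have hdg : DifferentiableAt ℂ g (zc p) := hg.1.differentiableAt (isOpen_ball.mem_nhds hyR)
  have h3 := hspd g (zc p) (n * (T + 1)) hdg (hg.2 _ hyR).1
  have hdF : DifferentiableOn ℂ (fun w => (hF x)^[n * (T + 1)] (g w)) (ball (zc p) R) :=
    (differentiable_iter x _).comp_differentiableOn hg.1
  have h4 : spd (fun w => (hF x)^[n * (T + 1)] (g w)) (zc p) = 1 / (1 + ‖zc p‖ ^ 2) :=
    spd_par (tau p) hdF hR0 (fun w hw => ⟨hne _ _ (hg.2 w hw).1, (hg.2 w hw).2⟩)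
  rw [h4, ← hD, hsdn_par _ _ p (hg.2 _ hyR).1 hp hgp, hpow] at h3
  by_contra hcon
  push Not at hcon
  have h5 : sdn x n p ^ (T + 1) ≤ 1 := pow_le_one₀ hsdn0 hcon
  have h6 : 0 ≤ spd g (zc p) := by
    unfold spd
    have := N2_pos (hg.2 _ hyR).1
    positivity
  have h7 : 1 / D ≤ 1 * (1 / (2 * D)) := by
    rw [h3]
    exact mul_le_mul h5 (h1.trans h2) h6 zero_le_one
  have h8 : 1 / (2 * D) = (1 / D) / 2 := by field_simp
  have h9 : 0 < 1 / D := by positivity
  rw [h8] at h7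
  linarith

end Pool.Agent.H99.BT207
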